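import Pool.Agent.P.MP_8a106a_gt.Bridge

/-! Fundamental groups of closed positively curved five-manifolds have a cyclic subgroup of
universally bounded index. The definitions are in `Pool/Agent/P/MP_8a106a_gt/SDefs.lean`. -/

namespace Pool.Agent.Results.MP_8a106a_gt.DimFive

open Pool.Agent.P.MP_8a106a_gt.S
open scoped Manifold ContDiff

theorem result : ∃ C : ℕ, ∀ (M : Type) [TopologicalSpace M] [T2Space M] [CompactSpace M]
    [ConnectedSpace M] [ChartedSpace E5 M] [IsManifold 𝓘(ℝ, E5) ∞ M] (g : RMetric E5 M),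
    PosSec g → ∀ x : M, ∃ H : Subgroup (FundamentalGroup M x),
      IsCyclic H ∧ 0 < H.index ∧ H.index ≤ C := by
  obtain ⟨C, hC⟩ := RG.main
  exact ⟨C, fun M _ _ _ _ _ _ g hg x => hC M g (RG.posSec_of hg) x⟩

end Pool.Agent.Results.MP_8a106a_gt.DimFive
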